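import Pool.Agent.Lib.MP_89d95d_co.Balanced

namespace Pool.Agent.Results.MP_89d95d_co.CliquePartition

open Pool.Agent.Lib.MP_89d95d_co

/-- The i-graphs of the well-covered graphs whose clique partition number and independence number
both equal `k` are exactly the Hamming graphs on 2-decomposable sets of `k`-tuples. -/
theorem result (k : ℕ) (W : Type) (H : SimpleGraph W) :
    HasCliquePartitionedSeed k H ↔
      ∃ (A : Fin k → Type) (_ : ∀ i, Finite (A i)) (M : Set (∀ i, A i)),
        TwoDecomposable M ∧ Nonempty (H ≃g hammingGraph M) :=
  hasCliquePartitionedSeed_iff k H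

end Pool.Agent.Results.MP_89d95d_co.CliquePartition
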