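import Pool.Agent.Lib.MP_89d95d_co.Flag

namespace Pool.Agent.Results.MP_89d95d_co.FlagComplexes

open Pool.Agent.Lib.MP_89d95d_co

/-- Not every i-graph has a well-covered seed: the cube graph of a simplicial complex is always an
i-graph, and it has a well-covered seed if and only if the complex is flag. -/
theorem result :
    (∃ (W : Type) (H : SimpleGraph W), IsIGraph H ∧ ¬ HasWellCoveredSeed H) ∧
      ∀ (n : ℕ) (D : Set (Finset (Fin n))), IsComplex D →
        IsIGraph (cubeGraph D) ∧ (HasWellCoveredSeed (cubeGraph D) ↔ IsFlag D) :=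
  ⟨exists_iGraph_without_seed, fun _ D hD => cubeGraph_complex D hD⟩

end Pool.Agent.Results.MP_89d95d_co.FlagComplexes
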