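import Pool.Agent.Lib.MP_89d95d_co_h37.Helly

namespace Pool.Agent.Results.MP_89d95d_co.HellyCharacterization

open Pool.Agent.Lib.MP_89d95d_co_h37

/-- A finite nonempty graph is the `i`-graph of a finite well-covered graph if and only if it has a
Helly labelling with finitely many labels. -/
theorem result {W : Type} [Finite W] [Nonempty W] (H : SimpleGraph W) :
    (∃ (V : Type) (_ : Fintype V) (_ : DecidableEq V) (G : SimpleGraph V),
      WellCovered G ∧ Nonempty (H ≃g iGraph G)) ↔
    ∃ (L : Type) (_ : Fintype L) (_ : DecidableEq L) (r : ℕ) (F : W → Finset L),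
      IsHellyLabelling H r F :=
  wellCovered_seed_iff H

end Pool.Agent.Results.MP_89d95d_co.HellyCharacterization
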