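import Pool.Agent.Lib.MP_89d95d_co.Median

namespace Pool.Agent.Results.MP_89d95d_co.MedianGraphs

open Pool.Agent.Lib.MP_89d95d_co

/-- Every finite median graph has a well-covered seed. -/
theorem result (W : Type) [Finite W] (H : SimpleGraph W) (hH : IsMedianGraph H) :
    HasWellCoveredSeed H :=
  median_hasWellCoveredSeed hH

end Pool.Agent.Results.MP_89d95d_co.MedianGraphs
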